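import Pool.Agent.Helper77.SO.St
import Pool.Agent.Helper13.OF4.C2

/-!
# MP_7a9ddc_co, project SO, module FA: the faces of `HG G W S`
-/

set_option autoImplicit false

namespace Pool.Agent.Helper6.SO.FA

open Equiv Equiv.Perm Pool.Agent.Helper35.PM Pool.Agent.Helper77.HY Pool.Agent.Helper77.OF4
  Pool.Agent.Helper77.SO

variable {V U : Type} {G : SimpleGraph V} {W : Set V} {S : Finset V}

theorem zmod2_ne {z w : ZMod 2} (h : z ≠ w) : w = z + 1 := by
  revert h
  revert z w
  decide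

theorem reach_some (hconn : (G.induce (S : Set V)).Connected) (u v : {v : V // v ∈ S}) :
    (HG G W S).Reachable (some u) (some v) := by
  let f : (G.induce (S : Set V)) →g HG G W S :=
    { toFun := fun x => some ⟨x.1, x.2⟩
      map_rel' := fun {a b} h => h }
  have h := hconn.preconnected ⟨u.1, u.2⟩ ⟨v.1, v.2⟩
  exact h.map f

theorem conn_HG (hconn : (G.induce (S : Set V)).Connected)
    (hnb : ∃ v ∈ S, ∃ w ∈ W, G.Adj v w) : (HG G W S).Connected := by
  obtain ⟨v0, hv0, w0, hw0, hadj⟩ := hnb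
  rw [SimpleGraph.connected_iff_exists_forall_reachable]
  refine ⟨some ⟨v0, hv0⟩, ?_⟩
  rintro (_ | u)
  · have h : (HG G W S).Adj (some ⟨v0, hv0⟩) none := ⟨w0, hw0, hadj⟩
    exact h.reachable
  · exact reach_some hconn _ _

theorem same_fst (R' : Rot (HG G W S)) [Finite V] (c : (HG G W S).Dart → ZMod 2)
    (hc2 : ∀ a, a.fst ≠ none → c (R'.r a) = c a) (a b : (HG G W S).Dart) (ha : a.fst ≠ none)
    (hab : a.fst = b.fst) : c a = c b := by
  classical
  have := Fintype.ofFinite V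
  have : Finite (HG G W S).Dart := inferInstance
  obtain ⟨k, hk⟩ := (R'.trans a b hab).exists_nat_pow_eq
  have h : ∀ n : ℕ, ((R'.r ^ n) a).fst = a.fst ∧ c ((R'.r ^ n) a) = c a := by
    intro n
    induction n with
    | zero => exact ⟨rfl, rfl⟩
    | succ n ih =>
      have h1 : (R'.r ^ (n + 1)) a = R'.r ((R'.r ^ n) a) := by rw [pow_succ', Perm.mul_apply]
      rw [h1]
      refine ⟨by rw [R'.fst_r, ih.1], ?_⟩
      rw [hc2 _ (by rw [ih.1]; exact ha), ih.2]
  rw [← hk, (h k).2]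

theorem const_c (R' : Rot (HG G W S)) [Finite V] (c : (HG G W S).Dart → ZMod 2)
    (hc1 : ∀ a, c a.symm = c a) (hc2 : ∀ a, a.fst ≠ none → c (R'.r a) = c a)
    (hconn : (G.induce (S : Set V)).Connected) (a b : (HG G W S).Dart) (ha : a.fst ≠ none)
    (hb : b.fst ≠ none) : c a = c b := by
  obtain ⟨u, hu⟩ := Option.ne_none_iff_exists'.1 ha
  obtain ⟨v, hv⟩ := Option.ne_none_iff_exists'.1 hb
  have key : ∀ (x y : {x // x ∈ (S : Set V)}) (_ : (G.induce (S : Set V)).Walk x y)
      (a b : (HG G W S).Dart), a.fst = some ⟨x.1, x.2⟩ → b.fst = some ⟨y.1, y.2⟩ → c a = c b := by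
    intro x y p
    induction p with
    | nil =>
      intro a b h1 h2
      exact same_fst R' c hc2 a b (by rw [h1]; simp) (h1.trans h2.symm)
    | @cons x z y hxz p ih =>
      intro a b h1 h2
      have hadj : (HG G W S).Adj (some ⟨x.1, x.2⟩) (some ⟨z.1, z.2⟩) := hxz
      let e : (HG G W S).Dart := ⟨(some ⟨x.1, x.2⟩, some ⟨z.1, z.2⟩), hadj⟩
      have h3 : c a = c e := same_fst R' c hc2 a e (by rw [h1]; simp) h1
      rw [h3, ← hc1 e]
      exact ih e.symm b rfl h2
  obtain ⟨p⟩ := hconn.preconnected ⟨u.1, u.2⟩ ⟨v.1, v.2⟩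
  exact key _ _ p a b hu hv

theorem fst_succ (R' : Rot (HG G W S)) (d : (HG G W S).Dart) (j : ℕ) :
    ((R'.φ ^ (j + 1)) d).fst = ((R'.φ ^ j) d).snd := by
  rw [pow_succ', Perm.mul_apply, R'.φ_fst]

/-- one step of the boundary walk -/
theorem step (R' : Rot (HG G W S)) {F : SimpleGraph U} {τ : V → U}
    (hτ : ∀ u ∈ S, ∀ v ∈ S, G.Adj u v → F.Adj (τ u) (τ v)) (d : (HG G W S).Dart) (j : ℕ)
    (z : {v : V // v ∈ S}) (hz : ((R'.φ ^ j) d).fst = some z)
    (hn : ((R'.φ ^ (j + 1)) d).fst ≠ none) :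
    ∃ z' : {v : V // v ∈ S}, ((R'.φ ^ (j + 1)) d).fst = some z' ∧ F.Adj (τ z.1) (τ z'.1) := by
  obtain ⟨z', hz'⟩ := Option.ne_none_iff_exists'.1 hn
  refine ⟨z', hz', ?_⟩
  have h := ((R'.φ ^ j) d).adj
  rw [← fst_succ, hz, hz'] at h
  exact hτ _ z.2 _ z'.2 h

/-- part of the boundary walk outside `none` -/
theorem walk (R' : Rot (HG G W S)) {F : SimpleGraph U} {τ : V → U} (q : U → ZMod 2)
    (hq : ∀ x y, F.Adj x y → q x ≠ q y)
    (hτ : ∀ u ∈ S, ∀ v ∈ S, G.Adj u v → F.Adj (τ u) (τ v)) (d : (HG G W S).Dart) (i : ℕ)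
    (x : {v : V // v ∈ S}) (hx : ((R'.φ ^ i) d).fst = some x) (N : ℕ)
    (hn : ∀ k, k ≤ N → ((R'.φ ^ (i + k)) d).fst ≠ none) :
    ∀ k, k ≤ N → ∃ z : {v : V // v ∈ S}, ((R'.φ ^ (i + k)) d).fst = some z ∧
      q (τ z.1) = q (τ x.1) + k ∧ ∃ p : F.Walk (τ x.1) (τ z.1), p.length = k := by
  intro k
  induction k with
  | zero =>
    intro _
    exact ⟨x, hx, by simp, SimpleGraph.Walk.nil, rfl⟩
  | succ k ih =>
    intro hk
    obtain ⟨z, hz, hqz, p, hp⟩ := ih (by omega)
    obtain ⟨z', hz', hadj⟩ := step R' hτ d (i + k) z hz (hn (k + 1) hk)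
    refine ⟨z', hz', ?_, p.concat hadj, by rw [SimpleGraph.Walk.length_concat, hp]⟩
    rw [zmod2_ne (hq _ _ hadj), hqz]
    push_cast
    ring

theorem main (hCutV : Pool.Agent.Helper35.PM.StCutV) : StFa := by
  intro V _ G W S R' U F τ hconn hcard hnb hcol hτ
  classical
  have := Fintype.ofFinite V
  have hfin : Finite (HG G W S).Dart := inferInstance
  have hc3 : 3 ≤ Fintype.card (Option {v : V // v ∈ S}) := by
    rw [Fintype.card_option, Fintype.card_coe]
    omega
  have hlen := Pool.Agent.Helper13.OF4.C2.face_len R' (conn_HG hconn hnb) hc3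
  obtain ⟨C⟩ := hcol
  obtain ⟨q, hq⟩ : ∃ q : U → ZMod 2, ∀ x y, F.Adj x y → q x ≠ q y :=
    ⟨fun x => C x, fun x y h => C.valid h⟩
  have hev : ∀ n : ℕ, ((n : ℕ) : ZMod 2) = 0 → Even n := by
    intro n hn
    exact (ZMod.natCast_eq_zero_iff_even).1 hn
  constructor
  · intro d hd
    obtain ⟨x, hx⟩ := Option.ne_none_iff_exists'.1 (hd 0)
    obtain ⟨z, hz, hqz, -⟩ := walk R' q hq hτ d 0 x hx (Function.minimalPeriod R'.φ d)
      (fun k _ => hd (0 + k)) _ (le_refl _)
    have hper : (R'.φ ^ (Function.minimalPeriod R'.φ d)) d = d := by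
      rw [← Equiv.Perm.iterate_eq_pow]
      exact Function.isPeriodicPt_minimalPeriod R'.φ d
    rw [zero_add, hper] at hz
    rw [pow_zero, Perm.coe_one, id_eq, hz] at hx
    have hxz : z = x := Option.some.inj hx
    rw [hxz] at hqz
    have h0 : ((Function.minimalPeriod R'.φ d : ℕ) : ZMod 2) = 0 := by
      have h := left_eq_add.1 hqz
      exact h
    have h1 := hev _ h0
    have h2 := hlen d
    obtain ⟨m, hm⟩ := h1
    omega
  · intro d hd
    have huniq : ∀ e : (HG G W S).Dart, e.fst = none → R'.φ.SameCycle d e → e = d := by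
      intro e he hs
      by_contra hne
      obtain ⟨c, hc1, hc2, hc3⟩ := hCutV _ _ R'.map d e (Ne.symm hne) (hd.trans he.symm) hs
      apply hc3
      have h1 : c d = c d.symm := (hc1 d).symm
      have h2 : c e = c e.symm := (hc1 e).symm
      rw [h1, h2]
      apply const_c R' c hc1 (fun a ha => hc2 a (by
        show a.fst ≠ d.fst
        rw [hd]; exact ha)) hconn
      · intro h
        have h' := d.adj
        have h'' : d.snd = none := h
        rw [hd, h''] at h'
        exact h'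
      · intro h
        have h' := e.adj
        have h'' : e.snd = none := h
        rw [he, h''] at h'
        exact h'
    refine ⟨huniq, ?_⟩
    intro x y hx hy
    have h3 := hlen d
    obtain ⟨n, hn⟩ : ∃ n, n = Function.minimalPeriod R'.φ d := ⟨_, rfl⟩
    rw [← hn] at h3 ⊢
    have hper : (R'.φ ^ n) d = d := by
      rw [← Equiv.Perm.iterate_eq_pow, hn]
      exact Function.isPeriodicPt_minimalPeriod R'.φ d
    have hnone : ∀ j, 1 ≤ j → j < n → ((R'.φ ^ j) d).fst ≠ none := by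
      intro j h1 h2 h
      have h4 := huniq _ h ⟨(j : ℤ), by rw [zpow_natCast]⟩
      have h5 : Function.IsPeriodicPt R'.φ j d := by
        show (R'.φ)^[j] d = d
        rw [Equiv.Perm.iterate_eq_pow]
        exact h4
      have h6 := h5.minimalPeriod_le (by omega)
      omega
    have hx1 : ((R'.φ ^ 1) d).fst = some x := by
      rw [pow_one, R'.φ_fst, hx]
    obtain ⟨z, hz, hqz, p, hp⟩ := walk R' q hq hτ d 1 x hx1 (n - 2)
      (fun k hk => hnone (1 + k) (by omega) (by omega)) (n - 2) (le_refl _)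
    have hb : 1 + (n - 2) = n - 1 := by omega
    rw [hb] at hz
    have hφb : R'.φ ((R'.φ ^ (n - 1)) d) = d := by
      rw [← Perm.mul_apply, ← pow_succ', Nat.sub_add_cancel (by omega), hper]
    have hzy : z = y := by
      have h1 : ((R'.φ ^ (n - 1)) d).symm = R'.r.symm d := by
        rw [Equiv.eq_symm_apply, ← R'.φ_apply]
        exact hφb
      have h2 : (R'.r.symm d).snd = ((R'.φ ^ (n - 1)) d).fst := by
        rw [← h1]
        rfl
      rw [h2, hz] at hy
      exact Option.some.inj hy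
    rw [hzy] at hqz
    have hpw : ∃ p : F.Walk (τ x.1) (τ y.1), p.length = n - 2 := by
      rw [← hzy]
      exact ⟨p, hp⟩
    obtain ⟨p, hp⟩ := hpw
    constructor
    · intro hτe
      rw [hτe] at hqz
      have h0 : (((n - 2 : ℕ)) : ZMod 2) = 0 := left_eq_add.1 hqz
      obtain ⟨m, hm⟩ := hev _ h0
      omega
    · have h7 := F.dist_le p
      rw [hp] at h7
      omega

end Pool.Agent.Helper6.SO.FA
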